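import Pool.Agent.MP_5c28a4_al.H89S.Base8
import Pool.Agent.MP_5c28a4_al.H45S.BUlt

/-!
First half of a round of section S8.
-/

set_option autoImplicit false

namespace Pool.Agent.MP_5c28a4_al.H89S

open scoped commutatorElement

namespace R1A

open Filter

variable {G : Type} [Group G]

theorem mk_mem_map {Y X : Subgroup G} [Y.Normal] (h : Y ≤ X) {x : G} :
    QuotientGroup.mk' Y x ∈ X.map (QuotientGroup.mk' Y) ↔ x ∈ X := by
  refine ⟨?_, fun hx => ⟨x, hx, rfl⟩⟩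
  rintro ⟨y, hy, e⟩
  have h1 : y⁻¹ * x ∈ Y := QuotientGroup.eq.1 e
  simpa using X.mul_mem hy (h h1)

theorem locFin_map {G' : Type} [Group G'] (f : G →* G') {X K : Subgroup G} (hX : X ≤ K)
    (h : LocFin K) : LocFin (X.map f) := by
  classical
  intro T hT
  have h1 : ∀ t : T, ∃ x ∈ X, f x = t := fun t => hT t t.2
  choose s hs hs' using h1
  have h2 := h (Finset.univ.image s) (by
    intro t ht
    obtain ⟨a, _, rfl⟩ := Finset.mem_image.1 ht
    exact hX (hs a))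
  have h3 : Subgroup.closure (↑T : Set G') ≤
      (Subgroup.closure (↑(Finset.univ.image s) : Set G)).map f := by
    refine (Subgroup.closure_le _).2 fun t ht => ⟨s ⟨t, ht⟩, Subgroup.subset_closure ?_, hs' _⟩
    simp
  have h4 : Finite ((Subgroup.closure (↑(Finset.univ.image s) : Set G)).map f) :=
    Finite.of_surjective _ (f.subgroupMap_surjective _)
  exact Finite.of_injective _ (Subgroup.inclusion_injective h3)

/-- the map induced on ultrapowers -/
noncomputable def umap {G' : Type} [Group G'] (f : G →* G') : Ult G →* Ult G' where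
  toFun x := Germ.map f x
  map_one' := BUltA.eq.2 (Eventually.of_forall fun _ => map_one f)
  map_mul' a b := by
    obtain ⟨x, rfl⟩ := BUltA.surj a
    obtain ⟨y, rfl⟩ := BUltA.surj b
    exact BUltA.eq.2 (Eventually.of_forall fun n => map_mul f (x n) (y n))

theorem umap_germ {G' : Type} [Group G'] (f : G →* G') (x : ℕ → G) :
    umap f (germ x) = germ fun n => f (x n) := rfl

theorem umap_cst {G' : Type} [Group G'] (f : G →* G') (x : G) :
    umap f (cst G x) = cst G' (f x) := rfl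

theorem umap_surj {G' : Type} [Group G'] (f : G →* G') (hf : Function.Surjective f) :
    Function.Surjective (umap f) := fun b => by
  obtain ⟨y, rfl⟩ := BUltA.surj b
  choose s hs using hf
  exact ⟨germ fun n => s (y n), BUltA.eq.2 (Eventually.of_forall fun n => hs _)⟩

theorem umap_mem {Y X : Subgroup G} [Y.Normal] (h : Y ≤ X) {z : Ult G} :
    umap (QuotientGroup.mk' Y) z ∈ star (X.map (QuotientGroup.mk' Y)) ↔ z ∈ star X := by
  obtain ⟨x, rfl⟩ := BUltA.surj z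
  rw [umap_germ, BUltA.mem, BUltA.mem]
  exact eventually_congr (Eventually.of_forall fun n => mk_mem_map h)

theorem cst_mem {X : Subgroup G} {x : G} : cst G x ∈ star X ↔ x ∈ X := by
  change germ (fun _ => x) ∈ star X ↔ _
  rw [BUltA.mem, eventually_const]

/-- the subgroup of the ultrapower used in the round -/
noncomputable def HH (B : Subgroup G) : Subgroup (Ult G) := (cst G).range ⊔ star B

theorem star_le_HH (B : Subgroup G) : star B ≤ HH B := le_sup_right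

theorem mem_HH {B : Subgroup G} {y : Ult G} {x : G} (h : y * (cst G x)⁻¹ ∈ star B) :
    y ∈ HH B := by
  have := Subgroup.mul_mem _ (star_le_HH B h)
    (Subgroup.mem_sup_left (S := (cst G).range) (T := star B) ⟨x, rfl⟩)
  simpa using this

theorem exists_theta (B : Subgroup G) [hB : B.Normal] :
    ∃ (θ : HH B →* G ⧸ B) (sec : HH B → G), (∀ y, θ y = QuotientGroup.mk' B (sec y)) ∧
      ∀ (y : HH B) (x : G), θ y = QuotientGroup.mk' B x ↔ (y : Ult G) * (cst G x)⁻¹ ∈ star B := by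
  have hN : (star B).Normal := BUltA.normal hB
  have h1 : ∀ y : HH B, ∃ x : G, (y : Ult G) * (cst G x)⁻¹ ∈ star B := fun y => by
    obtain ⟨_, ⟨x, rfl⟩, z, hz, e⟩ := Subgroup.mem_sup_of_normal_right.1 y.2
    refine ⟨x, ?_⟩
    rw [← e]
    exact hN.conj_mem z hz _
  choose sec hsec using h1
  have h2 : ∀ (y : HH B) (x : G), QuotientGroup.mk' B (sec y) = QuotientGroup.mk' B x ↔
      (y : Ult G) * (cst G x)⁻¹ ∈ star B := fun y x => by
    have e : (QuotientGroup.mk' B (sec y) = QuotientGroup.mk' B x) ↔ sec y * x⁻¹ ∈ B := by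
      rw [← mul_inv_eq_one, ← map_inv, ← map_mul, ← MonoidHom.mem_ker, QuotientGroup.ker_mk']
    rw [e, ← cst_mem, map_mul, map_inv]
    constructor
    · intro h
      have := mul_mem (hsec y) h
      simpa [mul_assoc] using this
    · intro h
      have := mul_mem (inv_mem (hsec y)) h
      simpa [mul_assoc] using this
  refine ⟨MonoidHom.mk' (fun y => QuotientGroup.mk' B (sec y)) fun a b => ?_, sec, fun _ => rfl, h2⟩
  rw [← map_mul, h2]
  have := mul_mem (hN.conj_mem _ (hsec b) (a : Ult G)) (hsec a)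
  simpa [mul_assoc] using this

theorem germ_sup {Y B : Subgroup G} (hB : ⁅B, B⁆ ≤ Y) (hYB : Y ≤ B) {ι : Type}
    (M : ℕ → ι → Subgroup G) (hM : ∀ n a, M n a ≤ B) (Z : Subgroup (Ult G))
    (hY : ∀ x : ℕ → G, (∀ n, x n ∈ Y) → germ x ∈ Z)
    (hZ : ∀ a, ∀ x : ℕ → G, (∀ n, x n ∈ M n a) → germ x ∈ Z) (s : Finset ι) :
    ∀ x : ℕ → G, (∀ n, x n ∈ Y ⊔ ⨆ a ∈ s, M n a) → germ x ∈ Z := by
  classical
  induction s using Finset.induction_on with
  | empty => exact fun x hx => hY x fun n => by simpa using hx n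
  | insert a s _ ih =>
    intro x hx
    have h1 : ∀ n, ∃ y ∈ Y ⊔ ⨆ a ∈ s, M n a, ∃ m ∈ M n a, y * m = x n := fun n => by
      have hle : (Y ⊔ ⨆ a ∈ s, M n a) ≤ B := sup_le hYB (iSup₂_le fun a _ => hM n a)
      have hnor : M n a ≤ Subgroup.normalizer ((Y ⊔ ⨆ a ∈ s, M n a : Subgroup G) : Set G) := by
        have key : ∀ m ∈ B, ∀ y ∈ (Y ⊔ ⨆ a ∈ s, M n a), m * y * m⁻¹ ∈ (Y ⊔ ⨆ a ∈ s, M n a) :=
          fun m hm y hy => by
            have h2 : ⁅m, y⁆ ∈ Y := hB (Subgroup.commutator_mem_commutator hm (hle hy))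
            have := mul_mem (Subgroup.mem_sup_left (T := ⨆ a ∈ s, M n a) h2) hy
            simpa [commutatorElement_def, mul_assoc] using this
        intro m hm
        refine Subgroup.mem_normalizer_iff.2 fun y => ⟨key m (hM n a hm) y, fun hy => ?_⟩
        have := key m⁻¹ (inv_mem (hM n a hm)) _ hy
        simpa [mul_assoc] using this
      have h3 := hx n
      rw [Finset.iSup_insert, sup_comm (M n a), ← sup_assoc, ← SetLike.mem_coe,
        Subgroup.coe_mul_of_right_le_normalizer_left _ _ hnor] at h3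
      exact h3
    choose y hy m hm e using h1
    have h4 : germ x = germ y * germ m :=
      (BUltA.eq (y := fun n => y n * m n)).2 (Eventually.of_forall fun n => (e n).symm)
    rw [h4]
    exact mul_mem (ih y hy) (hZ a m hm)

theorem exists_lim {α : Type} [Finite α] (f : ℕ → α) :
    ∃ v, ∀ᶠ n in (hyperfilter ℕ : Filter ℕ), f n = v :=
  Ultrafilter.eventually_exists_iff.1 (Eventually.of_forall fun n => ⟨f n, rfl⟩)

theorem exists_cover {ι : Type} (z : ι) (N : ℕ) (A : Finset ι) (h : A.card ≤ N) :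
    ∃ f : Fin N → ι, ∀ a ∈ A, ∃ t, f t = a := by
  classical
  refine ⟨fun t => if ht : t.1 < A.card then (A.equivFin.symm ⟨t.1, ht⟩).1 else z, fun a ha => ?_⟩
  refine ⟨⟨(A.equivFin ⟨a, ha⟩).1, (A.equivFin ⟨a, ha⟩).2.trans_le h⟩, ?_⟩
  simp

theorem comm_le_of_cz {Y : Subgroup G} [Y.Normal] {X M : Subgroup G} (h : X ≤ cz Y ⊤ M) :
    ⁅X, M⁆ ≤ Y :=
  Subgroup.commutator_le.2 fun x hx m hm => by
    have := inv_mem ((mem_cz.1 (h hx)).2 m hm)
    rwa [commutatorElement_inv] at this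

theorem le_cz {Y : Subgroup G} [Y.Normal] {X M : Subgroup G} (h : ⁅X, M⁆ ≤ Y) :
    X ≤ cz Y ⊤ M := fun x hx => mem_cz.2 ⟨trivial, fun m hm => by
  have := inv_mem (h (Subgroup.commutator_mem_commutator hx hm))
  rwa [commutatorElement_inv] at this⟩

theorem mu_comm (P B : Subgroup G) [P.Normal] [B.Normal] (j d d' : ℕ) :
    ⁅mu P j d ⊔ B, P⁆ ≤ mu P j d' ⊔ B := by
  refine comm_le_of_cz (sup_le (le_cz ?_) (le_cz ?_))
  · exact (Subgroup.commutator_mono (mu_le P j d) le_rfl).trans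
      (le_sup_of_le_left le_sup_right)
  · exact (Subgroup.commutator_le_left _ _).trans le_sup_right

theorem mu_pow (P B : Subgroup G) [P.Normal] [B.Normal] (hB : B ≤ P) (j d r : ℕ) :
    ∀ x ∈ mu P j d ⊔ B, x ^ r ∈ mu P j (d * r) ⊔ B := by
  have hle : mu P j d ⊔ B ≤ P := sup_le ((mu_le P j d).trans (lcs_le P j)) hB
  let T : Subgroup G :=
    { carrier := {x | x ∈ mu P j d ⊔ B ∧ x ^ r ∈ mu P j (d * r) ⊔ B}
      one_mem' := ⟨one_mem _, by simp⟩
      inv_mem' := fun hx => ⟨inv_mem hx.1, by simpa using inv_mem hx.2⟩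
      mul_mem' := fun {x y} hx hy => ⟨mul_mem hx.1 hy.1, by
        have h1 := mu_comm P B j d (d * r) (Subgroup.commutator_mem_commutator hx.1 (hle hy.1))
        have h2 := hx.2
        have h3 := hy.2
        rw [← QuotientGroup.ker_mk' (mu P j (d * r) ⊔ B), MonoidHom.mem_ker] at h1 h2 h3 ⊢
        rw [map_commutatorElement, commutatorElement_eq_one_iff_commute] at h1
        rw [map_pow] at h2 h3
        rw [map_pow, map_mul, h1.mul_pow, h2, h3, one_mul]⟩ }
  have h : mu P j d ⊔ B ≤ T := by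
    refine sup_le (sup_le ((Subgroup.closure_le _).2 ?_) ?_) ?_
    · rintro _ ⟨y, hy, rfl⟩
      refine ⟨Subgroup.mem_sup_left (pow_mem_mu P j d hy), ?_⟩
      rw [← pow_mul]
      exact Subgroup.mem_sup_left (pow_mem_mu P j _ hy)
    · exact fun x hx => ⟨Subgroup.mem_sup_left (Subgroup.mem_sup_right hx),
        pow_mem (Subgroup.mem_sup_left (Subgroup.mem_sup_right hx)) r⟩
    · exact fun x hx => ⟨Subgroup.mem_sup_right hx, pow_mem (Subgroup.mem_sup_right hx) r⟩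
  exact fun x hx => (h hx).2

theorem partC [Countable G] (hF : BFin) (hDec : SDec) (hBS : SBS) {h : ℕ} {q : ℕ → ℕ} {c : ℕ}
    (i : ℕ) {L : ℕ → Subgroup G} (tow : Tower h q L) (st : STc (L 0) c) {k : ℕ}
    (w : FreeGroup (Fin k)) (g : Fin k → G) (hw : FreeGroup.lift g w ≠ 1) {r : ℕ} (hr : r.Prime)
    (hrq : r ≠ q i) (M₁ M₂ : Subgroup G) [M₂.Normal] (h21 : M₂ ≤ M₁) (h10 : M₁ ≤ L 0)
    (hc : ⁅M₁, M₁⁆ ≤ M₂) (hp : ∀ x ∈ M₁, x ^ r ∈ M₂) (hz : ⁅M₂, L i⁆ ≤ L (i + 1))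
    (u : ℕ → Fin k → G) (hu : ∀ n, All (L i) (u n)) :
    ∃ (N : ℕ) (ζ : Fin N → G → ZMod r) (u' : ℕ → Fin k → G) (M : ℕ → Fin N → Subgroup G),
      (∀ a, AddOn M₁ (ζ a)) ∧ (∀ a, ∀ x ∈ M₂, ζ a x = 0) ∧ (∀ n a, M n a ≤ L i) ∧
      (∀ n t, u' n t ∈ L (i + 1) ⊔ ⨆ a ∈ (Finset.univ : Finset (Fin N)), M n a) ∧
      (∀ n, Phi w (L (i + 1)) (u' n * (u n * g))) ∧
      ∀ a, ∀ x ∈ M₁, ζ a x = 0 → ∀ m : ℕ → G, (∀ n, m n ∈ M n a) →
        ∀ᶠ n in (hyperfilter ℕ : Filter ℕ), ⁅x, m n⁆ ∈ L (i + 1) := by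
  classical
  have hY : (L (i + 1)).Normal := tow.normal _
  have : NeZero r := ⟨hr.ne_zero⟩
  obtain ⟨en, hen⟩ := exists_surjective_nat M₁
  let F : ℕ → Subgroup G := fun n =>
    Subgroup.closure (↑((Finset.range n).image fun t => (en t : G)) : Set G)
  have hFle : ∀ n, F n ≤ M₁ := fun n => (Subgroup.closure_le _).2 fun x hx => by
    obtain ⟨t, _, rfl⟩ := Finset.mem_image.1 (Finset.mem_coe.1 hx)
    exact (en t).2
  have hFfin : ∀ n, Finite (F n) := fun n => (hF.towerExp G h q L tow).1 _ fun x hx => by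
    obtain ⟨t, _, rfl⟩ := Finset.mem_image.1 hx
    exact h10 (en t).2
  have hE : ∀ n, M₂ ⊔ F n ≤ M₁ := fun n => sup_le h21 (hFle n)
  have hev : ∀ x ∈ M₁, ∀ᶠ n in (hyperfilter ℕ : Filter ℕ), x ∈ M₂ ⊔ F n := fun x hx => by
    obtain ⟨t, ht⟩ := hen ⟨x, hx⟩
    refine Nat.hyperfilter_le_atTop ((eventually_gt_atTop t).mono fun n hn => ?_)
    refine Subgroup.mem_sup_right (Subgroup.subset_closure ?_)
    exact Finset.mem_coe.2 (Finset.mem_image.2 ⟨t, Finset.mem_range.2 hn, by rw [ht]⟩)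
  obtain ⟨N, hN⟩ := hBS G (Fin k) h q L c w i tow st
  have h1 : ∀ n, ∃ (z : Fin N → G → ZMod r) (v : Fin k → G),
      (∀ a, AddOn (M₂ ⊔ F n) (z a) ∧ ∀ x ∈ M₂, z a x = 0) ∧
      (∀ t, v t ∈ L (i + 1) ⊔ ⨆ a ∈ (Finset.univ : Finset (Fin N)),
        cz (L (i + 1)) (L i) {x | x ∈ M₂ ⊔ F n ∧ z a x = 0}) ∧
      Phi w (L (i + 1)) (v * (u n * g)) := fun n => by
    have hd := hDec G (L (i + 1)) (L i) (M₂ ⊔ F n) M₂ (q i) r (tow.prime i) hr hrq.symm
      (tow.anti i) (tow.comm i) (tow.pow i)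
      (fun x _ y hy => ⟨(tow.normal i).conj_mem y hy x, by
        simpa using (tow.normal i).conj_mem y hy x⁻¹⟩)
      le_sup_left (by
        rw [Subgroup.relIndex_sup_left]
        have := hFfin n
        exact Subgroup.index_ne_zero_of_finite)
      ((Subgroup.commutator_mono (hE n) (hE n)).trans hc) (fun x hx => hp x (hE n hx)) hz
    obtain ⟨A, v, hA, hv, hphi⟩ := hN (u n * g) (u n)⁻¹
      {ζ : G → ZMod r // AddOn (M₂ ⊔ F n) ζ ∧ ∀ x ∈ M₂, ζ x = 0}
      (fun ζ => cz (L (i + 1)) (L i) {x | x ∈ M₂ ⊔ F n ∧ ζ.1 x = 0}) (fun _ => inf_le_left)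
      (fun t => Subgroup.mem_sup_right (hd (inv_mem (hu n t))))
      ⟨1, fun _ => one_mem _, by simpa using hw⟩
    obtain ⟨f, hf⟩ := exists_cover ⟨fun _ => 0, fun _ _ _ _ => by simp, fun _ _ => rfl⟩ N A hA
    refine ⟨fun a => (f a).1, v, fun a => (f a).2, fun t => ?_, hphi⟩
    refine SetLike.le_def.1 (sup_le_sup_left (iSup₂_le fun α hα => ?_) _) (hv t)
    obtain ⟨a, rfl⟩ := hf α hα
    exact le_iSup₂_of_le (f := fun a (_ : a ∈ (Finset.univ : Finset (Fin N))) =>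
      cz (L (i + 1)) (L i) {x | x ∈ M₂ ⊔ F n ∧ (f a).1 x = 0}) a (Finset.mem_univ a) le_rfl
  choose z v hz1 hv hphi using h1
  choose ζ hζ using fun (a : Fin N) (x : G) => exists_lim fun n => z n a x
  refine ⟨N, ζ, v, fun n a => cz (L (i + 1)) (L i) {x | x ∈ M₂ ⊔ F n ∧ z n a x = 0},
    fun a x hx y hy => ?_, fun a x hx => ?_, fun _ _ => inf_le_left, hv, hphi,
    fun a x hx h0 m hm => ?_⟩
  · obtain ⟨n, ⟨⟨h1, h2⟩, h3⟩, h4, h5⟩ := ((((hζ a (x * y)).and (hζ a x)).and (hζ a y)).and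
      ((hev x hx).and (hev y hy))).exists
    rw [← h1, ← h2, ← h3]
    exact (hz1 n a).1 x h4 y h5
  · obtain ⟨n, h1⟩ := (hζ a x).exists
    rw [← h1]
    exact (hz1 n a).2 x hx
  · exact ((hζ a x).and (hev x hx)).mono fun n hn =>
      (mem_cz.1 (hm n)).2 x ⟨hn.2, hn.1.trans h0⟩

/-- the local normaliser, lifted to the ultrapower of the group -/
theorem partA [Countable G] (hLN : SLNU) {k : ℕ} (g : Fin k → G) (Y B P K : Subgroup G)
    [Y.Normal] [hB : B.Normal] [hP : P.Normal] (hYB : Y ≤ B) (hBP : B ≤ P) (hPK : P ≤ K)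
    (hK : LocFin K) {r m : ℕ} (hr : r.Prime) (hm : m.Coprime r) (hpow : ∀ x ∈ B, x ^ m ∈ Y)
    (hpm : PMod r B P) :
    ∃ (u : ℕ → Fin k → G) (E : Subgroup (Ult G)), (∀ n, All B (u n)) ∧
      (∀ y ∈ E, ∃ x ∈ P, y * (cst G x)⁻¹ ∈ star B) ∧
      (∀ x ∈ P, ∃ y ∈ E, y * (cst G x)⁻¹ ∈ star B) ∧ PMod r (star Y) E ∧
      ∀ a, Nz (germ fun n => u n a * g a) E := by
  have : Countable (G ⧸ Y) := (QuotientGroup.mk'_surjective Y).countable
  have hs := QuotientGroup.mk'_surjective Y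
  obtain ⟨ub, lam, h1, h2, h3, -, h5⟩ := hLN (G ⧸ Y) (Fin k) (B.map (QuotientGroup.mk' Y))
    (P.map (QuotientGroup.mk' Y)) r m inferInstance hr (hB.map _ hs) (hP.map _ hs)
    (locFin_map _ hPK hK) (Subgroup.map_mono hBP) hm
    (by
      rintro _ ⟨x, hx, rfl⟩
      rw [← map_pow]
      exact (QuotientGroup.eq_one_iff _).2 (hpow x hx))
    (by
      rintro _ ⟨x, hx, rfl⟩
      obtain ⟨e, he⟩ := hpm x hx
      exact ⟨e, _, he, map_pow _ _ _⟩)
    (fun a => QuotientGroup.mk' Y (g a))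
  choose u hu hu' using fun n a => h1 n a
  have key : ∀ (y : Ult G) (x : G) (hx : x ∈ P),
      umap (QuotientGroup.mk' Y) y = lam ⟨_, x, hx, rfl⟩ → y * (cst G x)⁻¹ ∈ star B :=
    fun y x hx e => by
      rw [← umap_mem hYB, map_mul, map_inv, e, umap_cst]
      exact h2 ⟨_, x, hx, rfl⟩
  refine ⟨u, lam.range.comap (umap (QuotientGroup.mk' Y)), hu, ?_, fun x hx => ?_, ?_, fun a => ?_⟩
  · rintro y ⟨⟨_, x, hx, rfl⟩, e⟩
    exact ⟨x, hx, key y x hx e.symm⟩
  · obtain ⟨y, hy⟩ := umap_surj _ hs (lam ⟨_, x, hx, rfl⟩)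
    exact ⟨y, ⟨_, hy.symm⟩, key y x hx hy⟩
  · rintro y ⟨x, e⟩
    obtain ⟨t, ht⟩ := h3 x
    refine ⟨t, ?_⟩
    rw [← umap_mem le_rfl, map_pow, ← e, ht]
    exact one_mem _
  · have hg : umap (QuotientGroup.mk' Y) (germ fun n => u n a * g a) =
        germ fun n => ub n a * QuotientGroup.mk' Y (g a) := by
      rw [umap_germ]
      exact BUltA.eq.2 (Eventually.of_forall fun n => by rw [map_mul, hu'])
    have hN := hP.map _ hs
    rintro y ⟨x, e⟩
    constructor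
    · refine ⟨⟨_, hN.conj_mem x x.2 (QuotientGroup.mk' Y (g a))⟩, ?_⟩
      rw [h5 a x _ rfl, map_mul, map_mul, map_inv, hg, e]
    · refine ⟨⟨_, hN.conj_mem x x.2 (QuotientGroup.mk' Y (g a))⁻¹⟩, ?_⟩
      have := h5 a ⟨_, hN.conj_mem x x.2 (QuotientGroup.mk' Y (g a))⁻¹⟩ x (by simp [mul_assoc])
      rw [map_mul, map_mul, map_inv, hg, ← e, this]
      simp [mul_assoc]

end R1A

open R1A Filter in
theorem r1 : BFin → BVn → BSt → BUlt → SLNU → SDec → SBS → STrU → STrE → SR1 := by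
  intro hF hV hS _ hLN hDec hBS hTU hTE S h q c i e 𝒮 k w G _ L g r j s D pt hrq hmem
  classical
  obtain ⟨hr, hpi⟩ := D.pis _ hmem
  dsimp only at hr hpi
  have tow := D.tow
  have hN : ∀ a, (L a).Normal := tow.normal
  have hcount : Countable G := by
    have : Function.Surjective (FreeGroup.lift g) := by
      rw [← MonoidHom.range_eq_top, FreeGroup.range_lift_eq_closure, pt.gen]
    exact this.countable
  have hloc := (hF.towerExp G h q L tow).1
  have hi0 : L i ≤ L 0 := tow.le (Nat.zero_le i)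
  obtain ⟨P₀, -, hP₀, -, hpart, -⟩ := hS.part G (L 0) (L i) e r hr (hN 0) (hN i) hi0 hloc D.nil
  have hP0 : P₀ ≤ L 0 := fun x hx => ((hpart x).1 hx).1
  have hiP : L i ≤ P₀ := fun x hx => (hpart x).2 ⟨hi0 hx, 0, by simpa using hx⟩
  have hpm : PMod r (L i) P₀ := fun x hx => ((hpart x).1 hx).2
  obtain ⟨u, E, hu, hE1, hE2, hE3, hE4⟩ := partA hLN g (L (i + 1)) (L i) P₀ (L 0) (tow.anti i) hiP
    hP0 hloc hr ((Nat.coprime_primes (tow.prime i) hr).2 hrq.symm) (tow.pow i) hpm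
  have hm1 : mu P₀ j (r ^ s) ⊔ L i ≤ P₀ := sup_le ((mu_le P₀ j _).trans (lcs_le P₀ j)) hiP
  obtain ⟨N, ζ, u', M, hadd, hzero, hM, hu', hphi, hcz⟩ := partC hF hDec hBS i tow D.st w g pt.ne
    hr hrq (mu P₀ j (r ^ s) ⊔ L i) (mu P₀ j (r ^ (s + 1)) ⊔ L i)
    (sup_le_sup_right (mu_dvd P₀ j (pow_dvd_pow r (Nat.le_succ s))) _) (hm1.trans hP0)
    ((Subgroup.commutator_mono le_rfl hm1).trans (mu_comm P₀ (L i) j _ _))
    (by rw [pow_succ]; exact mu_pow P₀ (L i) hiP j _ r)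
    (comm_le_of_cz (sup_le (le_cz (hpi P₀ hP0 hpm)) (le_cz (tow.comm i)))) u hu
  obtain ⟨θ, sec, hsec, hθ⟩ := exists_theta (L i)
  have hSN : ∀ a, (star (L a)).Normal := fun a => BUltA.normal (hN a)
  have D₁ := hTE S h q c i e 𝒮 (Ult G) (HH (L i)) (fun a => star (L a)) (HH (L i)).subtype
    ((star (L 0)).comap (HH (L i)).subtype) (hTU S h q c i e 𝒮 G L D) (HH (L i)).subtype_injective
    ((hSN 0).comap _) le_rfl
  generalize hL₁ : (fun a => (star (L 0)).comap (HH (L i)).subtype ⊓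
    (star (L a)).comap (HH (L i)).subtype) = L₁ at D₁
  have hL : ∀ a, ∀ y : HH (L i), y ∈ L₁ a ↔ (y : Ult G) ∈ star (L a) := fun a y => by
    rw [← hL₁]
    exact ⟨fun hy => hy.2, fun hy => ⟨BUltA.mono (tow.le (Nat.zero_le a)) hy, hy⟩⟩
  have hy0 : ∀ y : HH (L i), (y : Ult G) * (cst G (sec y))⁻¹ ∈ star (L i) :=
    fun y => (hθ y _).1 (hsec y)
  have hX : ∀ X : Subgroup G, L i ≤ X → ∀ y : HH (L i),
      θ y ∈ X.map (QuotientGroup.mk' (L i)) ↔ (y : Ult G) ∈ star X := fun X hX y => by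
    rw [hsec, mk_mem_map hX, ← cst_mem]
    have h1 := BUltA.mono hX (hy0 y)
    constructor
    · intro h2
      simpa using mul_mem h1 h2
    · intro h2
      have := mul_mem (inv_mem h1) h2
      simpa [mul_assoc] using this
  have hsurj : Function.Surjective θ := fun b => by
    obtain ⟨x, rfl⟩ := QuotientGroup.mk'_surjective (L i) b
    exact ⟨⟨cst G x, mem_HH (x := x) (by simp)⟩, (hθ _ x).2 (by simp)⟩
  have hui : ∀ n t, u' n t ∈ L i := fun n t =>
    SetLike.le_def.1 (sup_le (tow.anti i) (iSup₂_le fun a _ => hM n a)) (hu' n t)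
  have hin : ∀ x : ℕ → G, (∀ n, x n ∈ L i) → germ x ∈ star (L i) := fun x hx =>
    BUltA.mem.2 (Eventually.of_forall hx)
  have hγ : ∀ a, (germ fun n => u n a * g a) * (cst G (g a))⁻¹ ∈ star (L i) := fun a =>
    (BUltA.mem (x := fun n => u n a * g a * (g a)⁻¹)).2
      (Eventually.of_forall fun n => by simpa using hu n a)
  have hker : ∀ y ∈ L₁ i, θ y = 1 := fun y hy =>
    (hθ y 1).2 (by simpa using (hL i y).1 hy)
  have hmu : ∀ d, ∀ y ∈ mu ((P₀.map (QuotientGroup.mk' (L i))).comap θ) j d ⊔ L₁ i,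
      sec y ∈ mu P₀ j d ⊔ L i := fun d y hy => by
    rw [← mk_mem_map (Y := L i) le_sup_right, ← hsec]
    have h1 : mu ((P₀.map (QuotientGroup.mk' (L i))).comap θ) j d ⊔ L₁ i ≤
        ((mu P₀ j d ⊔ L i).map (QuotientGroup.mk' (L i))).comap θ := by
      refine sup_le ?_ fun y hy => ?_
      · rw [← Subgroup.map_le_iff_le_comap, mu_map]
        refine (mu_mono (Subgroup.map_comap_le _ _) j d).trans ?_
        rw [← mu_map]
        exact Subgroup.map_mono le_sup_left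
      · rw [Subgroup.mem_comap, hker y hy]
        exact one_mem _
    exact h1 hy
  have hN₁ : ∀ a, (L₁ a).Normal := D₁.tow.normal
  refine ⟨HH (L i), inferInstance, L₁, hN₁, fun a => ⟨_, mem_HH (hγ a)⟩,
    (P₀.map (QuotientGroup.mk' (L i))).comap θ, E.comap (HH (L i)).subtype, N,
    fun a y => ζ a (sec y), fun t => ⟨_, star_le_HH _ (hin (fun n => u' n t) fun n => hui n t)⟩,
    D₁, ?_, ?_, fun x => ?_, fun y hy => ?_, fun y hy => ?_, fun y hy => ?_, fun a y hy => ?_,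
    fun a x hx y hy => ?_, fun a x hx => hzero a _ (hmu _ x hx), fun t => ?_, ?_⟩
  · have h1 : (Subgroup.closure (Set.range fun a =>
        (⟨_, mem_HH (hγ a)⟩ : HH (L i)))).map θ = ⊤ := by
      have h2 := congrArg (Subgroup.map (QuotientGroup.mk' (L i))) pt.gen
      rw [Subgroup.map_top_of_surjective _ (QuotientGroup.mk'_surjective _),
        MonoidHom.map_closure, ← Set.range_comp] at h2
      rw [MonoidHom.map_closure, ← Set.range_comp, ← h2]
      congr 2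
      funext a
      exact (hθ _ _).2 (hγ a)
    rw [eq_top_iff, ← Subgroup.comap_top θ, ← h1, Subgroup.comap_map_eq]
    exact sup_le_sup_left (Subgroup.ker_le_comap _ _) _
  · have h1 : L₁ 0 = ((L 0).map (QuotientGroup.mk' (L i))).comap θ := by
      ext y
      rw [hL, Subgroup.mem_comap, hX _ hi0]
    rw [h1]
    exact hV.comap _ _ θ _ (hV.map _ _ _ _ (QuotientGroup.mk'_surjective _) pt.covn)
  · rw [Subgroup.mem_comap, hsec, mk_mem_map hiP, hpart, hL, ← hX _ hi0, hsec, mk_mem_map hi0]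
    refine and_congr_right fun _ => exists_congr fun t => ?_
    rw [hL, ← hX _ le_rfl, map_pow, hsec, ← map_pow, mk_mem_map le_rfl]
  · obtain ⟨x, hx, h1⟩ := hE1 _ hy
    rw [Subgroup.mem_comap, (hθ y x).2 h1]
    exact ⟨x, hx, rfl⟩
  · rw [Subgroup.mem_comap, hsec, mk_mem_map hiP] at hy
    obtain ⟨y', hy', h1⟩ := hE2 _ hy
    have h2 : (⟨y', mem_HH h1⟩ : HH (L i))⁻¹ * y ∈ L₁ i := by
      rw [hL]
      have := (hSN i).conj_mem _ (mul_mem (hy0 y) (inv_mem h1)) y'⁻¹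
      simpa [mul_assoc] using this
    have h3 : (⟨y', mem_HH h1⟩ : HH (L i)) ∈ E.comap (HH (L i)).subtype := hy'
    simpa using Subgroup.mul_mem_sup h3 h2
  · obtain ⟨t, ht⟩ := hE3 _ hy
    exact ⟨t, (hL _ _).2 ht⟩
  · exact hE4 a _ hy
  · have h1 : (sec x * sec y)⁻¹ * sec (x * y) ∈ L i := by
      refine QuotientGroup.eq.1 ?_
      change QuotientGroup.mk' (L i) _ = QuotientGroup.mk' (L i) _
      rw [map_mul, ← hsec, ← hsec, ← hsec, map_mul]
    have h2 := hadd a _ (mul_mem (hmu _ x hx) (hmu _ y hy)) _ (Subgroup.mem_sup_right h1)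
    rw [hzero a _ (Subgroup.mem_sup_right h1), add_zero, mul_inv_cancel_left] at h2
    exact h2.trans (hadd a _ (hmu _ x hx) _ (hmu _ y hy))
  · refine (Subgroup.mem_map_iff_mem (HH (L i)).subtype_injective).1 ?_
    refine germ_sup (tow.comm i) (tow.anti i) M hM _ (fun x hx => ?_) (fun a m hm => ?_)
      Finset.univ (fun n => u' n t) fun n => hu' n t
    · refine ⟨⟨_, star_le_HH _ (hin x fun n => tow.anti i (hx n))⟩, ?_, rfl⟩
      exact Subgroup.mem_sup_left ((hL _ _).2 (BUltA.mem.2 (Eventually.of_forall hx)))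
    · have h1 := hin m fun n => hM n a (hm n)
      refine ⟨⟨_, star_le_HH _ h1⟩, ?_, rfl⟩
      refine Subgroup.mem_sup_right (Subgroup.mem_iSup_of_mem a ?_)
      refine mem_cz.2 ⟨(hL _ _).2 h1, fun y hy => (hL _ _).2 ?_⟩
      have h2 : ⁅cst G (sec y), germ m⁆ ∈ star (L (i + 1)) :=
        (BUltA.mem (x := fun n => ⁅sec y, m n⁆)).2 (hcz a _ (hmu _ y hy.1) hy.2 m hm)
      have h3 : ⁅(y : Ult G) * (cst G (sec y))⁻¹, germ m⁆ ∈ star (L (i + 1)) :=
        BUltA.mono (tow.comm i) (BUltA.comm _ _ (Subgroup.commutator_mem_commutator (hy0 y) h1))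
      have h4 := mul_mem ((hSN (i + 1)).conj_mem _ h2 ((y : Ult G) * (cst G (sec y))⁻¹)) h3
      simpa [commutatorElement_def, mul_assoc] using h4
  · choose v hv hv' using hphi
    refine ⟨fun t => ⟨_, star_le_HH _ (hin (fun n => v n t) fun n => tow.anti i (hv n t))⟩,
      fun t => (hL _ _).2 (BUltA.mem.2 (Eventually.of_forall fun n => hv n t)), fun h0 => ?_⟩
    have h1 := congrArg (HH (L i)).subtype h0
    rw [map_one, ← MonoidHom.comp_apply] at h1
    have h2 : FreeGroup.lift (fun t => germ fun n => (v n * (u' n * (u n * g))) t) w = 1 := by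
      rw [← h1]
      refine DFunLike.congr_fun (FreeGroup.ext_hom _ _ fun t => ?_) w
      simp only [FreeGroup.lift_apply_of, MonoidHom.comp_apply]
      rfl
    rw [BUltA.lift, BUltA.eq_one] at h2
    obtain ⟨n, hn⟩ := h2.exists
    exact hv' n hn

end Pool.Agent.MP_5c28a4_al.H89S
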